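import Mathlib
import Pool.Agent.TH922.KC.Spec

/-! # Project CP, part 2 (helper3 for helper894): counting transcendence degrees -/

set_option autoImplicit false

namespace Pool.Agent.Y3.CP

open Pool.Agent.TH922.KC

section

variable {k0 F : Type} [Field k0] [Field F] [Algebra k0 F]

theorem card_le {ι κ' : Type} [Fintype ι] [Fintype κ']
    (x : ι → F) (hx : AlgebraicIndependent k0 x) (y : κ' → F)
    (h : ∀ i, IsAlgebraic (Algebra.adjoin k0 (Set.range y)) (x i)) :
    Fintype.card ι ≤ Fintype.card κ' := by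
  classical
  have h1 : (AlgebraicIndependent.matroid k0 F).Indep (Set.range x) := by
    rw [AlgebraicIndependent.matroid_indep_iff]
    exact hx.to_subtype_range
  have h2 : Set.range x ⊆ (AlgebraicIndependent.matroid k0 F).closure (Set.range y) := by
    rw [AlgebraicIndependent.matroid_closure_eq]
    rintro _ ⟨i, rfl⟩
    exact h i
  have h3 := h1.encard_le_eRk_of_subset h2
  rw [Matroid.eRk_closure_eq] at h3
  have h4 := h3.trans ((AlgebraicIndependent.matroid k0 F).eRk_le_encard (Set.range y))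
  have h5 : (Set.range x).encard = Fintype.card ι := by
    rw [← Set.image_univ, hx.injective.encard_image, Set.encard_univ, ENat.card_eq_coe_fintype_card]
  have h6 : (Set.range y).encard ≤ Fintype.card κ' := by
    rw [← Set.image_univ]
    refine (Set.encard_image_le _ _).trans ?_
    rw [Set.encard_univ, ENat.card_eq_coe_fintype_card]
  rw [h5] at h4
  exact_mod_cast h4.trans h6

variable (k0) in
/-- the subfield of the elements algebraic over `k0(S)` -/
def Mf (S : Set F) : Subfield F where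
  carrier := {z | IsAlgebraic (Algebra.adjoin k0 S) z}
  mul_mem' := fun ha hb => ha.mul hb
  one_mem' := isAlgebraic_one
  add_mem' := fun ha hb => ha.add hb
  zero_mem' := isAlgebraic_zero
  neg_mem' := fun ha => ha.neg
  inv_mem' := fun _ ha => ha.inv

lemma mem_Mf {S : Set F} {z : F} : z ∈ Mf k0 S ↔ IsAlgebraic (Algebra.adjoin k0 S) z := Iff.rfl

lemma Mf_of_mem {S : Set F} {z : F} (h : z ∈ S) : z ∈ Mf k0 S :=
  isAlgebraic_algebraMap (⟨z, Algebra.subset_adjoin h⟩ : Algebra.adjoin k0 S)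

lemma Mf_mono {S S' : Set F} (h : S ⊆ S') : Mf k0 S ≤ Mf k0 S' := by
  intro z hz
  have h1 : z ∈ (AlgebraicIndependent.matroid k0 F).closure S := by
    rw [AlgebraicIndependent.matroid_closure_eq]; exact hz
  have h2 := (AlgebraicIndependent.matroid k0 F).closure_subset_closure h h1
  rw [AlgebraicIndependent.matroid_closure_eq] at h2
  exact h2

open scoped IntermediateField.algebraAdjoinAdjoin in
lemma Mf_of_field {S : Set F} {z : F} (h : IsAlgebraic (IntermediateField.adjoin k0 S) z) :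
    z ∈ Mf k0 S :=
  (IsFractionRing.isAlgebraic_iff (Algebra.adjoin k0 S) (IntermediateField.adjoin k0 S) F).mpr h

end

section

variable {F : Type} [Field F] (D : Derivation ℤ F F)

lemma it_add (t : ℕ) (a b : F) : D^[t] (a + b) = D^[t] a + D^[t] b := by
  induction t generalizing a b with
  | zero => rfl
  | succ t ih => rw [Function.iterate_succ_apply, Function.iterate_succ_apply,
      Function.iterate_succ_apply, map_add, ih]

lemma it_zero (t : ℕ) : D^[t] (0 : F) = 0 := by
  induction t with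
  | zero => rfl
  | succ t ih => rw [Function.iterate_succ_apply, map_zero, ih]

lemma it_sum {ι : Type} (s : Finset ι) (f : ι → F) (t : ℕ) :
    D^[t] (∑ i ∈ s, f i) = ∑ i ∈ s, D^[t] (f i) := by
  classical
  induction s using Finset.induction_on with
  | empty => simp only [Finset.sum_empty]; exact it_zero D t
  | insert a s ha ih => rw [Finset.sum_insert ha, Finset.sum_insert ha, it_add, ih]

lemma it_cmul {c : F} (hc : D c = 0) (t : ℕ) (a : F) : D^[t] (c * a) = c * D^[t] a := by
  induction t generalizing a with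
  | zero => rfl
  | succ t ih =>
    rw [Function.iterate_succ_apply, Function.iterate_succ_apply, D.leibniz, hc, smul_zero,
      add_zero, smul_eq_mul, ih]

/-- all derivatives up to order `T` are in `M` -/
def Gd (M : Subfield F) (T : ℕ) (a : F) : Prop := ∀ t ≤ T, D^[t] a ∈ M

lemma Gd_add {M : Subfield F} {T : ℕ} {a b : F} (ha : Gd D M T a) (hb : Gd D M T b) :
    Gd D M T (a + b) := by
  intro t ht
  rw [it_add]
  exact add_mem (ha t ht) (hb t ht)

lemma Gd_D {M : Subfield F} {T : ℕ} {a : F} (ha : Gd D M (T + 1) a) : Gd D M T (D a) := by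
  intro t ht
  rw [← Function.iterate_succ_apply]
  exact ha (t + 1) (by omega)

lemma Gd_le {M : Subfield F} {T T' : ℕ} (h : T' ≤ T) {a : F} (ha : Gd D M T a) : Gd D M T' a :=
  fun t ht => ha t (ht.trans h)

lemma Gd_mul {M : Subfield F} (T : ℕ) : ∀ {a b : F}, Gd D M T a → Gd D M T b →
    Gd D M T (a * b) := by
  induction T with
  | zero =>
    intro a b ha hb t ht
    obtain rfl : t = 0 := by omega
    exact mul_mem (ha 0 le_rfl) (hb 0 le_rfl)
  | succ T ih =>
    intro a b ha hb t ht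
    cases t with
    | zero => exact mul_mem (ha 0 (by omega)) (hb 0 (by omega))
    | succ t =>
      rw [Function.iterate_succ_apply, D.leibniz, smul_eq_mul, smul_eq_mul]
      exact Gd_add D (ih (Gd_le D (by omega) ha) (Gd_D D hb))
        (ih (Gd_le D (by omega) hb) (Gd_D D ha)) t (by omega)

lemma Gd_one {M : Subfield F} (T : ℕ) : Gd D M T (1 : F) := by
  intro t ht
  cases t with
  | zero => exact one_mem M
  | succ t =>
    rw [Function.iterate_succ_apply, D.map_one_eq_zero, it_zero]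
    exact zero_mem M

lemma Gd_pow {M : Subfield F} {T : ℕ} {a : F} (ha : Gd D M T a) (n : ℕ) : Gd D M T (a ^ n) := by
  induction n with
  | zero => rw [pow_zero]; exact Gd_one D T
  | succ n ih => rw [pow_succ]; exact Gd_mul D T ih ha

lemma Gd_prod {M : Subfield F} {T : ℕ} {ι : Type} (s : Finset ι) (f : ι → F)
    (h : ∀ i ∈ s, Gd D M T (f i)) : Gd D M T (∏ i ∈ s, f i) := by
  classical
  induction s using Finset.induction_on with
  | empty => rw [Finset.prod_empty]; exact Gd_one D T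
  | insert a s ha ih =>
    rw [Finset.prod_insert ha]
    exact Gd_mul D T (h a (Finset.mem_insert_self _ _))
      (ih fun i hi => h i (Finset.mem_insert_of_mem hi))

lemma it_pow {u : F} (hu : D u = 1) (i t : ℕ) :
    D^[t] (u ^ i) = (i.descFactorial t : F) * u ^ (i - t) := by
  induction t with
  | zero => simp
  | succ t ih =>
    rw [Function.iterate_succ_apply', ih, D.leibniz, Derivation.map_natCast, smul_zero, add_zero,
      D.leibniz_pow, hu, Nat.descFactorial_succ]
    simp only [smul_eq_mul, nsmul_eq_mul, mul_one]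
    push_cast
    rw [Nat.sub_sub]
    ring

end

/-- **counting transcendence degrees** -/
theorem count (k0 F : Type) [Field k0] [Field F] [Algebra k0 F] (p : ℕ) [Fact p.Prime] [CharP F p]
    (n N0 : ℕ) (Φ : Type) [Fintype Φ] (e : Φ → ℕ) (he : ∀ φ, p - 1 ≤ e φ)
    (cf : (Σ φ : Φ, It (Fin (n + 1)) (e φ)) → F) (D : Derivation ℤ F F) (hD : ∀ s, D (cf s) = 0)
    (x : Fin (n + 1) → F) (j0 j1 : Fin (n + 1)) (hx0 : x j0 = 1) (hx1 : D (x j1) = 1)
    (hind : AlgebraicIndependent k0
      (fun o : Option (Σ φ : Φ, It (Fin (n + 1)) (e φ)) => o.elim (x j1) cf))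
    (A : Finset Φ) (hA : ∀ φ ∈ A, D (∑ μ : It (Fin (n + 1)) (e φ),
      cf ⟨φ, μ⟩ * ∏ j, x j ^ (μ.1 j)) = 0)
    (θ : Fin N0 → F) (hθ : ∀ t < p, ∀ j,
      IsAlgebraic (IntermediateField.adjoin k0 (Set.range θ)) (D^[t] (x j))) :
    A.card * (p - 1) + 1 ≤ N0 := by
  classical
  have hp : p.Prime := Fact.out
  have hp2 := hp.two_le
  have hj : j0 ≠ j1 := by
    rintro rfl
    rw [hx0, D.map_one_eq_zero] at hx1
    exact zero_ne_one hx1
  -- the special exponents
  have hμd : ∀ (φ : Φ) (i : Fin (p - 1)),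
      (Finsupp.single j0 (e φ - (i.1 + 1)) + Finsupp.single j1 (i.1 + 1)).degree = e φ := by
    intro φ i
    have h1 := he φ
    have h2 := i.2
    rw [map_add, Finsupp.degree_single, Finsupp.degree_single]
    omega
  obtain ⟨μ, hμ⟩ : ∃ μ : ∀ φ : Φ, Fin (p - 1) → It (Fin (n + 1)) (e φ), ∀ φ i, (μ φ i).1 =
      Finsupp.single j0 (e φ - (i.1 + 1)) + Finsupp.single j1 (i.1 + 1) :=
    ⟨fun φ i => ⟨_, hμd φ i⟩, fun _ _ => rfl⟩
  have hμ1 : ∀ φ i, (μ φ i).1 j1 = i.1 + 1 := by
    intro φ i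
    rw [hμ, Finsupp.add_apply, Finsupp.single_eq_of_ne (by simpa using hj.symm),
      Finsupp.single_eq_same, zero_add]
  have hμinj : ∀ φ i i', μ φ i = μ φ i' → i = i' := by
    intro φ i i' h
    have h1 := hμ1 φ i
    rw [h, hμ1] at h1
    exact Fin.ext (by omega)
  have hxμ : ∀ φ i, ∏ j, x j ^ ((μ φ i).1 j) = x j1 ^ (i.1 + 1) := by
    intro φ i
    rw [hμ]
    rw [← Finset.mul_prod_erase Finset.univ _ (Finset.mem_univ j0),
      ← Finset.mul_prod_erase (Finset.univ.erase j0) _
        (Finset.mem_erase.mpr ⟨hj.symm, Finset.mem_univ j1⟩)]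
    rw [Finset.prod_eq_one, hx0, one_pow, one_mul, mul_one, Finsupp.add_apply,
      Finsupp.single_eq_of_ne (by simpa using hj.symm), Finsupp.single_eq_same, zero_add]
    intro j hj'
    rw [Finset.mem_erase, Finset.mem_erase] at hj'
    rw [Finsupp.add_apply, Finsupp.single_eq_of_ne (by simpa using hj'.2.1),
      Finsupp.single_eq_of_ne (by simpa using hj'.1), add_zero, pow_zero]
  -- the special elements
  let Bd : Finset (Σ φ : Φ, It (Fin (n + 1)) (e φ)) :=
    (A ×ˢ (Finset.univ : Finset (Fin (p - 1)))).image (fun q => ⟨q.1, μ q.1 q.2⟩)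
  have hBdmem : ∀ s, s ∈ Bd ↔ ∃ φ ∈ A, ∃ i, (⟨φ, μ φ i⟩ : Σ φ : Φ, It (Fin (n + 1)) (e φ)) = s := by
    intro s
    simp only [Bd, Finset.mem_image, Finset.mem_product, Finset.mem_univ, and_true, Prod.exists]
    constructor
    · rintro ⟨φ, i, h1, h2⟩; exact ⟨φ, h1, i, h2⟩
    · rintro ⟨φ, h1, i, h2⟩; exact ⟨φ, i, h1, h2⟩
  have hBdcard : Bd.card = A.card * (p - 1) := by
    rw [Finset.card_image_of_injOn, Finset.card_product, Finset.card_univ, Fintype.card_fin]
    rintro ⟨φ, i⟩ - ⟨φ', i'⟩ - h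
    simp only [Sigma.mk.injEq] at h
    obtain ⟨rfl, h⟩ := h
    rw [hμinj φ i i' (eq_of_heq h)]
  -- the fields
  let y : Fin N0 ⊕ {s // s ∉ Bd} → F := Sum.elim θ (fun s => cf s.1)
  have hsub : Set.range θ ⊆ Set.range y := by
    rintro _ ⟨j, rfl⟩
    exact ⟨Sum.inl j, rfl⟩
  have hMM : Mf k0 (Set.range θ) ≤ Mf k0 (Set.range y) := Mf_mono hsub
  have hxG : ∀ j, Gd D (Mf k0 (Set.range θ)) (p - 1) (x j) := by
    intro j t ht
    exact Mf_of_field (hθ t (by omega) j)
  have hmono : ∀ (φ : Φ) (ν : It (Fin (n + 1)) (e φ)),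
      Gd D (Mf k0 (Set.range θ)) (p - 1) (∏ j, x j ^ (ν.1 j)) :=
    fun φ ν => Gd_prod D _ _ fun j _ => Gd_pow D (hxG j) _
  have hC : ∀ s, s ∉ Bd → cf s ∈ Mf k0 (Set.range y) := by
    intro s hs
    exact Mf_of_mem ⟨Sum.inr ⟨s, hs⟩, rfl⟩
  have hrel : ∀ φ ∈ A, ∀ t, 1 ≤ t → ∑ ν : It (Fin (n + 1)) (e φ),
      cf ⟨φ, ν⟩ * D^[t] (∏ j, x j ^ (ν.1 j)) = 0 := by
    intro φ hφ t ht
    have h1 : D^[t] (∑ ν : It (Fin (n + 1)) (e φ), cf ⟨φ, ν⟩ * ∏ j, x j ^ (ν.1 j)) = 0 := by
      obtain ⟨t, rfl⟩ : ∃ t', t = t' + 1 := ⟨t - 1, by omega⟩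
      rw [Function.iterate_succ_apply, hA φ hφ, it_zero]
    rw [it_sum] at h1
    rw [← h1]
    exact Finset.sum_congr rfl fun ν _ => (it_cmul D (hD _) t _).symm
  have hB : ∀ φ ∈ A, ∀ k : ℕ, ∀ i : Fin (p - 1), p - 2 - i.1 = k →
      cf ⟨φ, μ φ i⟩ ∈ Mf k0 (Set.range y) := by
    intro φ hφ k
    induction k using Nat.strong_induction_on with
    | _ k ih =>
      intro i hi
      have h1 := hrel φ hφ (i.1 + 1) (by omega)
      rw [← Finset.add_sum_erase Finset.univ _ (Finset.mem_univ (μ φ i))] at h1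
      have h2 : ∑ ν ∈ Finset.univ.erase (μ φ i), cf ⟨φ, ν⟩ * D^[i.1 + 1] (∏ j, x j ^ (ν.1 j)) ∈
          Mf k0 (Set.range y) := by
        refine sum_mem fun ν hν => ?_
        rw [Finset.mem_erase] at hν
        have h3 : D^[i.1 + 1] (∏ j, x j ^ (ν.1 j)) ∈ Mf k0 (Set.range y) :=
          hMM (hmono φ ν (i.1 + 1) (by have := i.2; omega))
        by_cases hs : (⟨φ, ν⟩ : Σ φ : Φ, It (Fin (n + 1)) (e φ)) ∈ Bd
        · obtain ⟨φ', hφ', i', h4⟩ := (hBdmem _).mp hs
          simp only [Sigma.mk.injEq] at h4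
          obtain ⟨rfl, h4⟩ := h4
          have h5 := eq_of_heq h4
          subst h5
          have hne : i' ≠ i := fun h6 => hν.1 (by rw [h6])
          rcases lt_or_gt_of_ne hne with hlt | hgt
          · rw [hxμ, it_pow D hx1, Nat.descFactorial_of_lt (by
              have : i'.1 < i.1 := hlt
              omega), Nat.cast_zero, zero_mul, mul_zero]
            exact zero_mem _
          · have h7 : i.1 < i'.1 := hgt
            have h8 := i'.2
            exact mul_mem (ih (p - 2 - i'.1) (by omega) i' rfl) h3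
        · exact mul_mem (hC _ hs) h3
      have h9 : cf ⟨φ, μ φ i⟩ * D^[i.1 + 1] (∏ j, x j ^ ((μ φ i).1 j)) ∈ Mf k0 (Set.range y) := by
        rw [eq_neg_of_add_eq_zero_left h1]
        exact neg_mem h2
      rw [hxμ, it_pow D hx1, Nat.descFactorial_self, Nat.sub_self, pow_zero, mul_one] at h9
      have h10 : ((Nat.factorial (i.1 + 1) : ℕ) : F) ≠ 0 := by
        rw [Ne, CharP.cast_eq_zero_iff F p, hp.dvd_factorial]
        have := i.2
        omega
      have h11 : ((Nat.factorial (i.1 + 1) : ℕ) : F) ∈ Mf k0 (Set.range y) := natCast_mem _ _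
      have h12 := div_mem h9 h11
      rwa [mul_div_cancel_right₀ _ h10] at h12
  have hall : ∀ o : Option (Σ φ : Φ, It (Fin (n + 1)) (e φ)),
      IsAlgebraic (Algebra.adjoin k0 (Set.range y)) (o.elim (x j1) cf) := by
    intro o
    rw [← mem_Mf]
    cases o with
    | none => exact hMM (hxG j1 0 (by omega))
    | some s =>
      by_cases hs : s ∈ Bd
      · obtain ⟨φ, hφ, i, rfl⟩ := (hBdmem s).mp hs
        exact hB φ hφ _ i rfl
      · exact hC s hs
  have hfin := card_le _ hind y hall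
  rw [Fintype.card_option, Fintype.card_sum, Fintype.card_fin, Fintype.card_subtype_compl,
    Fintype.card_coe, hBdcard] at hfin
  have hle : A.card * (p - 1) ≤ Fintype.card (Σ φ : Φ, It (Fin (n + 1)) (e φ)) := by
    rw [← hBdcard]
    exact Finset.card_le_univ _
  omega

end Pool.Agent.Y3.CP
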