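import Pool.Agent.Z894.CP.Stm
import Pool.Agent.Y3.CP.Cnt

/-! # Project CP, part 2 (helper3 for helper894): counting transcendence degrees -/

set_option autoImplicit false

namespace Pool.Agent.Y3.CP

theorem count_holds : Pool.Agent.Z894.CP.PCount := by
  intro k0 F _ _ _ p _ _ n N0 Φ _ e he cf D hD x j0 j1 hx0 hx1 hind A hA θ hθ
  exact count k0 F p n N0 Φ e he cf D hD x j0 j1 hx0 hx1 hind A hA θ hθ

end Pool.Agent.Y3.CP
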